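import Pool.Agent.Q83.Curve.Red

open MeasureTheory Complex Set
open scoped Real ENNReal ComplexConjugate

namespace Pool.Agent.Results.MP_e9ccd1_an.Planar

/-- Euclidean space of dimension `d`. -/
abbrev E (d : ℕ) : Type := EuclideanSpace ℝ (Fin d)

/-- `g : [0,L] → R^d` is a piecewise twice continuously differentiable closed curve, parametrised
by arc length, with only finitely many self-intersections. -/
structure IsClosedCurve {d : ℕ} (L : ℝ) (g : ℝ → E d) : Prop where
  pos : 0 < L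
  cont : ContinuousOn g (Icc 0 L)
  closed : g 0 = g L
  pieces : ∃ (n : ℕ) (a : ℕ → ℝ), a 0 = 0 ∧ a n = L ∧ (∀ k < n, a k < a (k + 1)) ∧
    (∀ k < n, ContDiffOn ℝ 2 g (Icc (a k) (a (k + 1)))) ∧
    ∀ k < n, ∀ t ∈ Ioo (a k) (a (k + 1)), ‖deriv g t‖ = 1
  selfint : {t | t ∈ Ico 0 L ∧ ∃ s ∈ Ico 0 L, s ≠ t ∧ g s = g t}.Finite

/-- Some closed sub-loop of the curve lies in an affine plane. -/
def HasPlanarLoop {d : ℕ} (L : ℝ) (g : ℝ → E d) : Prop :=
  ∃ a b : ℝ, 0 ≤ a ∧ a < b ∧ b ≤ L ∧ g a = g b ∧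
    ∃ P : Submodule ℝ (E d), Module.finrank ℝ P = 2 ∧ ∀ t ∈ Icc a b, g t - g a ∈ P

/-- The normalised arc-length measure. -/
noncomputable def arc {d : ℕ} (L : ℝ) (g : ℝ → E d) : Measure (E d) :=
  (ENNReal.ofReal L)⁻¹ • (volume.restrict (Ico 0 L)).map g

/-- The exponential `exp(2 pi i <l,x>)`. -/
noncomputable def ex {d : ℕ} (l x : E d) : ℂ := Complex.exp (2 * π * I * (inner ℝ l x : ℝ))

/-- `E(Lam)` is a tight frame of `L^2(mu)` with constant `A`. -/
def IsTight {d : ℕ} (mu : Measure (E d)) (Lam : Set (E d)) (A : ℝ) : Prop :=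
  ∀ f : E d → ℂ, MemLp f 2 mu →
    HasSum (fun l : Lam => ‖∫ x, f x * conj (ex l x) ∂mu‖ ^ 2) (A * ∫ x, ‖f x‖ ^ 2 ∂mu)

/-- `E(Lam)` is an orthonormal basis of `L^2(mu)`. -/
def IsSpectrum {d : ℕ} (mu : Measure (E d)) (Lam : Set (E d)) : Prop :=
  ∃ b : HilbertBasis Lam ℂ (Lp ℂ 2 mu), ∀ l : Lam, (b l : E d → ℂ) =ᵐ[mu] ex (l : E d)

/-- `mu` is spectral. -/
def Spectral {d : ℕ} (mu : Measure (E d)) : Prop :=
  ∃ Lam : Set (E d), Lam.Countable ∧ IsSpectrum mu Lam

/-- `mu` is tight-frame spectral. -/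
def TightSpectral {d : ℕ} (mu : Measure (E d)) : Prop :=
  ∃ (Lam : Set (E d)) (A : ℝ), Lam.Countable ∧ 0 < A ∧ IsTight mu Lam A

open Pool.Agent.Q83.Curve

variable {d : ℕ} {L : ℝ} {g : ℝ → E d}

lemma aem (h : IsClosedCurve L g) : AEMeasurable g (volume.restrict (Ico 0 L)) :=
  (h.cont.mono Ico_subset_Icc_self).aemeasurable measurableSet_Ico

lemma ofReal_ne (h : IsClosedCurve L g) : (ENNReal.ofReal L)⁻¹ ≠ 0 ∧ (ENNReal.ofReal L)⁻¹ ≠ ⊤ := by
  constructor
  · exact ENNReal.inv_ne_zero.2 ENNReal.ofReal_ne_top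
  · exact ENNReal.inv_ne_top.2 (by simpa using h.pos)

lemma integral_arc (h : IsClosedCurve L g) {F : Type*} [NormedAddCommGroup F] [NormedSpace ℝ F]
    {f : E d → F} (hf : StronglyMeasurable f) :
    ∫ x, f x ∂(arc L g) = L⁻¹ • ∫ s in Ico 0 L, f (g s) := by
  unfold arc
  rw [integral_smul_measure, integral_map (aem h) hf.aestronglyMeasurable, ENNReal.toReal_inv,
    ENNReal.toReal_ofReal h.pos.le]

lemma arc_finite (h : IsClosedCurve L g) : IsFiniteMeasure (arc L g) := by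
  unfold arc
  have : IsFiniteMeasure ((volume.restrict (Ico 0 L)).map g) := by infer_instance
  constructor
  rw [Measure.smul_apply, smul_eq_mul]
  exact ENNReal.mul_lt_top (lt_top_iff_ne_top.2 (ofReal_ne h).2) (measure_lt_top _ _)

lemma ex_norm (l x : E d) : ‖ex l x‖ = 1 := by
  unfold ex
  rw [show (2 * π * I * ((inner ℝ l x : ℝ) : ℂ))
    = ((2 * π * inner ℝ l x : ℝ) : ℂ) * I by push_cast; ring]
  exact Complex.norm_exp_ofReal_mul_I _

lemma ex_cont (l : E d) : Continuous (ex l) := by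
  unfold ex
  fun_prop

lemma ex_add (l x y : E d) : ex l (x + y) = ex l x * ex l y := by
  unfold ex
  rw [← Complex.exp_add, inner_add_right]
  congr 1
  push_cast
  ring

/-- minimal closed sub-loops are simple -/
lemma simple_loop (h : IsClosedCurve L g) {a b : ℝ} (ha : 0 ≤ a) (hab : a < b) (hb : b ≤ L)
    (he : g a = g b) : ∃ s0 t0, a ≤ s0 ∧ s0 < t0 ∧ t0 ≤ b ∧ g s0 = g t0 ∧ InjOn g (Ico s0 t0) := by
  set F : Set ℝ := {t | t ∈ Ico 0 L ∧ ∃ s ∈ Ico 0 L, s ≠ t ∧ g s = g t} with hF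
  set Q : Set (ℝ × ℝ) := {p | a ≤ p.1 ∧ p.1 < p.2 ∧ p.2 ≤ b ∧ g p.1 = g p.2} with hQ
  have hsub : Q ⊆ (F ∪ {0, L}) ×ˢ (F ∪ {0, L}) := by
    rintro ⟨s, t⟩ ⟨h1, h2, h3, h4⟩
    simp only at h1 h2 h3 h4
    have hs0 : 0 ≤ s := ha.trans h1
    have ht0 : 0 < t := lt_of_le_of_lt hs0 h2
    rcases (h3.trans hb).eq_or_lt with ht | ht
    · -- `t = L`
      constructor
      · simp only
        rcases hs0.eq_or_lt with h0 | h0
        · right; left; exact h0.symm
        · left
          refine ⟨⟨hs0, by linarith⟩, 0, ⟨le_rfl, h.pos⟩, h0.ne, ?_⟩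
          rw [h.closed, ← ht, ← h4]
      · right; right; exact ht
    · have hsF : s ∈ Ico 0 L := ⟨hs0, h2.trans ht⟩
      have htF : t ∈ Ico 0 L := ⟨ht0.le, ht⟩
      exact ⟨Or.inl ⟨hsF, t, htF, h2.ne', h4.symm⟩, Or.inl ⟨htF, s, hsF, h2.ne, h4⟩⟩
  have hfin : Q.Finite := by
    have hF2 : (F ∪ {0, L}).Finite := h.selfint.union (by simp)
    exact (hF2.prod hF2).subset hsub
  obtain ⟨⟨s0, t0⟩, hmem, hmin⟩ := Set.exists_min_image Q (fun p => p.2 - p.1) hfin
    ⟨(a, b), le_rfl, hab, le_rfl, he⟩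
  obtain ⟨h1, h2, h3, h4⟩ := hmem
  simp only at h1 h2 h3 h4
  refine ⟨s0, t0, h1, h2, h3, h4, ?_⟩
  intro x hx y hy hxy
  by_contra hne
  rcases lt_or_gt_of_ne hne with hlt | hlt
  · have := hmin (x, y) ⟨h1.trans hx.1, hlt, hy.2.le.trans h3, hxy⟩
    simp only at this
    linarith [hx.1, hy.2]
  · have := hmin (y, x) ⟨h1.trans hy.1, hlt, hx.2.le.trans h3, hxy.symm⟩
    simp only at this
    linarith [hy.1, hx.2]

/-- Isometric coordinates on a plane, extended by the orthogonal projection. -/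
lemma coords (P : Submodule ℝ (E d)) (hP : Module.finrank ℝ P = 2) :
    ∃ K : E d →L[ℝ] ℂ, (∀ x ∈ P, ‖K x‖ = ‖x‖) ∧
      ∀ l : E d, ∀ x ∈ P, inner ℝ l x = (K l).re * (K x).re + (K l).im * (K x).im := by
  have iso : P ≃ₗᵢ[ℝ] ℂ :=
    ((stdOrthonormalBasis ℝ P).reindex (finCongr hP)).equiv Complex.orthonormalBasisOneI
      (Equiv.refl _)
  have hproj : ∀ x (hx : x ∈ P), P.orthogonalProjectionOnto x = ⟨x, hx⟩ := fun x hx =>
    Submodule.orthogonalProjectionOnto_mem_subspace_eq_self (K := P) ⟨x, hx⟩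
  refine ⟨(iso.toContinuousLinearEquiv : P →L[ℝ] ℂ).comp P.orthogonalProjectionOnto, ?_, ?_⟩
  · intro x hx
    simp only [ContinuousLinearMap.comp_apply]
    rw [hproj x hx]
    exact iso.norm_map _
  · intro l x hx
    simp only [ContinuousLinearMap.comp_apply]
    have h2 : inner ℝ l x = inner ℝ (P.orthogonalProjectionOnto l) (⟨x, hx⟩ : P) := by
      have := Submodule.inner_orthogonalProjectionOnto_eq_of_mem_left (K := P) ⟨x, hx⟩ l
      rw [real_inner_comm, real_inner_comm _ (P.orthogonalProjectionOnto l)]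
      exact this.symm
    rw [hproj x hx, h2, ← iso.inner_map_map]
    show inner ℝ (iso (P.orthogonalProjectionOnto l)) (iso ⟨x, hx⟩)
      = (iso (P.orthogonalProjectionOnto l)).re * (iso ⟨x, hx⟩).re
        + (iso (P.orthogonalProjectionOnto l)).im * (iso ⟨x, hx⟩).im
    generalize iso (P.orthogonalProjectionOnto l) = z
    generalize iso ⟨x, hx⟩ = w
    rw [Complex.inner]
    simp [Complex.mul_re]
    ring

theorem no_tight (h : IsClosedCurve L g) (hpl : HasPlanarLoop L g) (Lam : Set (E d))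
    (hcnt : Lam.Countable) (A : ℝ) (hA : 0 < A) (ht : IsTight (arc L g) Lam A) : False := by
  have hfinm := arc_finite h
  -- nonempty
  have hne : Nonempty Lam := by
    by_contra hem
    rw [not_nonempty_iff] at hem
    have h1 := ht (fun _ => 1) (memLp_const 1)
    have h2 := h1.unique hasSum_empty
    have h3 : (∫ x, ‖(1 : ℂ)‖ ^ 2 ∂(arc L g)) = 1 := by
      rw [integral_arc h (f := fun _ => ‖(1 : ℂ)‖ ^ 2) stronglyMeasurable_const]
      simp [h.pos.le, h.pos.ne']
    rw [h3] at h2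
    linarith
  have hcnt' : Countable Lam := hcnt.to_subtype
  obtain ⟨a, b, ha, hab, hb, he, P, hP, hplane⟩ := hpl
  obtain ⟨s0, t0, has, hst, htb, hee, hinj⟩ := simple_loop h ha hab hb he
  obtain ⟨K, hKn, hKi⟩ := coords P hP
  obtain ⟨n, q, q0, qn, qm, qc, _⟩ := h.pieces
  have hs0 : 0 ≤ s0 := ha.trans has
  have htL : t0 ≤ L := htb.trans hb
  have hdiff : ∀ s ∈ Icc a b, ∀ t ∈ Icc a b, g s - g t ∈ P := by
    intro s hs t ht
    have := P.sub_mem (hplane s hs) (hplane t ht)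
    rwa [sub_sub_sub_cancel_right] at this
  set hh : ℝ → ℂ := fun s => K (g s) with hhdef
  have hhi : InjOn hh (Ico s0 t0) := by
    intro x hx y hy hxy
    apply hinj hx hy
    simp only [hhdef] at hxy
    have h1 : K (g x - g y) = 0 := by rw [map_sub, hxy, sub_self]
    have h2 := hKn (g x - g y) (hdiff x ⟨has.trans hx.1, hx.2.le.trans htb⟩ y
      ⟨has.trans hy.1, hy.2.le.trans htb⟩)
    rw [h1, norm_zero] at h2
    exact sub_eq_zero.1 (norm_eq_zero.1 h2.symm)
  obtain ⟨T, S, r, hloop, m, N, J, c, hrep⟩ := curveLoop (h := hh) q0 qn qm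
    (K.continuous.comp_continuousOn h.cont) (fun k hk => K.contDiff.comp_contDiffOn (qc k hk))
    hs0 hst htL (by simp only [hhdef, hee]) hhi
  set l : ℝ := t0 - s0 with hl
  have hlp : 0 < l := by rw [hl]; linarith
  refine core (ι := Lam) (w := fun i => K i) (A := A * L / l) hloop ?_ hrep
  intro f hf
  -- the function on the curve
  have hemb := ContinuousOn.measurableEmbedding (measurableSet_Ico (a := s0) (b := t0))
    (h.cont.mono (Ico_subset_Icc_self.trans (Icc_subset_Icc hs0 htL))) hinj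
  set G : E d → ℂ := Function.extend ((Ico s0 t0).domRestrict g)
    (fun s : Ico s0 t0 => f (((s : ℝ) - s0) / l)) (fun _ => 0) with hG
  have hGm : Measurable G := hemb.measurable_extend
    (hf.1.comp ((measurable_subtype_coe.sub_const s0).div_const l)) measurable_const
  obtain ⟨C, hC0, hC⟩ := hf.bound
  have hGb : ∀ x, ‖G x‖ ≤ C := by
    intro x
    by_cases hx : ∃ s, (Ico s0 t0).domRestrict g s = x
    · obtain ⟨s, rfl⟩ := hx
      rw [hG, hemb.injective.extend_apply]
      exact hC _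
    · rw [hG, Function.extend_apply' _ _ _ hx]
      simpa using hC0
  have hGin : ∀ s ∈ Ico s0 t0, G (g s) = f ((s - s0) / l) := by
    intro s hs
    have := hemb.injective.extend_apply (fun s : Ico s0 t0 => f (((s : ℝ) - s0) / l))
      (fun _ => 0) ⟨s, hs⟩
    exact this
  have hGout : ∀ s ∈ Ico 0 L, s ∉ Ico s0 t0 →
      s ∉ {t | t ∈ Ico 0 L ∧ ∃ s ∈ Ico 0 L, s ≠ t ∧ g s = g t} → G (g s) = 0 := by
    intro s hs hs' hsF
    rw [hG, Function.extend_apply']
    rintro ⟨⟨u, hu⟩, hu2⟩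
    apply hsF
    refine ⟨hs, u, ⟨hs0.trans hu.1, hu.2.trans_le htL⟩, ?_, hu2⟩
    rintro rfl
    exact hs' hu
  -- transfer of integrals
  have transfer : ∀ {F : Type} [NormedAddCommGroup F] [NormedSpace ℝ F] (Ψ : ℂ → E d → F),
      (∀ x, Ψ 0 x = 0) → (∫ s in Ico 0 L, Ψ (G (g s)) (g s))
        = l • ∫ x in (0 : ℝ)..1, Ψ (f x) (g (s0 + l * x)) := by
    intro F _ _ Ψ hΨ
    have e1 : (∫ s in Ico 0 L, Ψ (G (g s)) (g s))
        = ∫ s in Ico 0 L, (Ico s0 t0).indicator (fun s => Ψ (f ((s - s0) / l)) (g s)) s := by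
      apply setIntegral_congr_ae measurableSet_Ico
      have hnull : volume {t | t ∈ Ico 0 L ∧ ∃ s ∈ Ico 0 L, s ≠ t ∧ g s = g t} = 0 :=
        h.selfint.measure_zero _
      filter_upwards [measure_eq_zero_iff_ae_notMem.1 hnull] with s hsF hs
      by_cases hs' : s ∈ Ico s0 t0
      · rw [indicator_of_mem hs', hGin s hs']
      · rw [indicator_of_notMem hs', hGout s hs hs' hsF, hΨ]
    rw [e1, setIntegral_indicator measurableSet_Ico]
    have e2 : Ico 0 L ∩ Ico s0 t0 = Ico s0 t0 :=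
      inter_eq_right.2 (Ico_subset_Ico hs0 htL)
    rw [e2, integral_Ico_eq_integral_Ioc, ← intervalIntegral.integral_of_le hst.le]
    have e3 := intervalIntegral.integral_comp_add_mul (a := 0) (b := 1)
      (fun s => Ψ (f ((s - s0) / l)) (g s)) hlp.ne' s0
    rw [mul_zero, add_zero, mul_one, show s0 + l = t0 by rw [hl]; ring] at e3
    have e4 : (∫ x in (0 : ℝ)..1, Ψ (f ((s0 + l * x - s0) / l)) (g (s0 + l * x)))
        = ∫ x in (0 : ℝ)..1, Ψ (f x) (g (s0 + l * x)) := by
      congr 1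
      funext x
      rw [show (s0 + l * x - s0) / l = x by field_simp; ring]
    rw [← e4, e3, smul_smul, mul_inv_cancel₀ hlp.ne', one_smul]
  -- apply the hypothesis
  have hGL : MemLp G 2 (arc L g) := MemLp.of_bound hGm.aestronglyMeasurable C
    (Filter.Eventually.of_forall hGb)
  have key := ht G hGL
  have k1 : ∀ i : Lam, ‖∫ x, G x * conj (ex (i : E d) x) ∂(arc L g)‖ ^ 2
      = (l / L) ^ 2 * ‖∫ t in (0 : ℝ)..1, f t * conj (ee (K i) (hh (s0 + l * Int.fract t)))‖ ^ 2 := by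
    intro i
    have hsm : StronglyMeasurable (fun x => G x * conj (ex (i : E d) x)) :=
      hGm.stronglyMeasurable.mul
        (Complex.continuous_conj.comp (ex_cont (i : E d))).stronglyMeasurable
    rw [integral_arc h hsm, transfer (fun c x => c * conj (ex (i : E d) x)) (fun x => zero_mul _)]
    set cst : ℂ := ex (i : E d) (g a) * conj (ee (K i) (K (g a))) with hcst
    have hcn : ‖cst‖ = 1 := by
      rw [hcst, norm_mul, RCLike.norm_conj, ex_norm, ee_norm, mul_one]
    have e1 : (∫ x in (0 : ℝ)..1, f x * conj (ex (i : E d) (g (s0 + l * x))))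
        = conj cst * ∫ t in (0 : ℝ)..1, f t * conj (ee (K i) (hh (s0 + l * Int.fract t))) := by
      rw [← intervalIntegral.integral_const_mul, intervalIntegral.integral_of_le zero_le_one,
        intervalIntegral.integral_of_le zero_le_one, ← integral_Ico_eq_integral_Ioc,
        ← integral_Ico_eq_integral_Ioc]
      apply setIntegral_congr_fun measurableSet_Ico
      intro x hx
      simp only
      rw [Int.fract_eq_self.2 hx]
      have hmem : s0 + l * x ∈ Icc a b := by
        have h1 := mul_nonneg hlp.le hx.1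
        have h2 := mul_le_mul_of_nonneg_left hx.2.le hlp.le
        refine ⟨by linarith, ?_⟩
        rw [hl] at h1 h2 ⊢
        linarith
      have e2 : ex (i : E d) (g (s0 + l * x)) = cst * ee (K i) (hh (s0 + l * x)) := by
        have e3 : g (s0 + l * x) = g a + (g (s0 + l * x) - g a) := by abel
        have e4 : ex (i : E d) (g (s0 + l * x) - g a) = ee (K i) (K (g (s0 + l * x) - g a)) := by
          unfold ex ee
          rw [hKi (i : E d) _ (hplane _ hmem)]
        rw [e3, ex_add, e4, map_sub, ee_sub, hcst]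
        simp only [hhdef]
        ring
      rw [e2, map_mul]
      ring
    rw [e1, norm_smul, norm_smul, norm_mul, RCLike.norm_conj, hcn, one_mul,
      Real.norm_of_nonneg (inv_nonneg.2 h.pos.le), Real.norm_of_nonneg hlp.le]
    ring
  have k2 : (∫ x, ‖G x‖ ^ 2 ∂(arc L g)) = (l / L) * ∫ t in (0 : ℝ)..1, ‖f t‖ ^ 2 := by
    have hsm : StronglyMeasurable (fun x => ‖G x‖ ^ 2) :=
      (hGm.norm.pow_const 2).stronglyMeasurable
    rw [integral_arc h hsm, transfer (fun c x => ‖c‖ ^ 2) (fun x => by simp)]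
    simp only [smul_eq_mul]
    ring
  simp only [k1, k2] at key
  have hLl : (l / L) ≠ 0 := div_ne_zero hlp.ne' h.pos.ne'
  have key2 := key.mul_left ((l / L) ^ 2)⁻¹
  have e5 : ∀ x : ℝ, ((l / L) ^ 2)⁻¹ * ((l / L) ^ 2 * x) = x := by
    intro x
    rw [← mul_assoc, inv_mul_cancel₀ (pow_ne_zero 2 hLl), one_mul]
  simp only [e5] at key2
  have e6 : ((l / L) ^ 2)⁻¹ * (A * ((l / L) * ∫ t in (0 : ℝ)..1, ‖f t‖ ^ 2))
      = A * L / l * ∫ t in (0 : ℝ)..1, ‖f t‖ ^ 2 := by
    have := h.pos.ne'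
    field_simp
  rw [e6] at key2
  exact key2

theorem spectrum_tight (h : IsClosedCurve L g) (Lam : Set (E d))
    (hs : IsSpectrum (arc L g) Lam) : IsTight (arc L g) Lam 1 := by
  obtain ⟨b, hb⟩ := hs
  intro f hf
  have h1 := b.hasSum_inner_mul_inner (hf.toLp f) (hf.toLp f)
  have hco : ∀ l : Lam, inner ℂ (b l) (hf.toLp f)
      = ∫ x, f x * conj (ex (l : E d) x) ∂(arc L g) := by
    intro l
    rw [L2.inner_def]
    apply integral_congr_ae
    filter_upwards [hb l, hf.coeFn_toLp] with x h1 h2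
    rw [h1, h2]
    simp only [RCLike.inner_apply]
  have h2 : ∀ l : Lam, inner ℂ (hf.toLp f) (b l) * inner ℂ (b l) (hf.toLp f)
      = ((‖∫ x, f x * conj (ex (l : E d) x) ∂(arc L g)‖ ^ 2 : ℝ) : ℂ) := by
    intro l
    rw [← inner_conj_symm, ← Complex.normSq_eq_conj_mul_self, Complex.normSq_eq_norm_sq, hco]
  simp only [h2] at h1
  have h3 : inner ℂ (hf.toLp f) (hf.toLp f) = ((∫ x, ‖f x‖ ^ 2 ∂(arc L g) : ℝ) : ℂ) := by
    rw [L2.inner_def, ← integral_complex_ofReal]
    apply integral_congr_ae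
    filter_upwards [hf.coeFn_toLp] with x h2
    rw [h2, inner_self_eq_norm_sq_to_K]
    simp
  rw [h3] at h1
  rw [one_mul]
  exact_mod_cast h1

/-- **Main result.** Let `g` be a piecewise twice continuously differentiable closed curve in
`R^d` with finitely many self-intersections, parametrised by arc length. If `d = 2`, or if some
closed sub-loop of the curve is contained in an affine plane, then its arc-length measure is
neither spectral nor tight-frame spectral. -/
theorem result (d : ℕ) (L : ℝ) (g : ℝ → E d) (h : IsClosedCurve L g)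
    (h2 : d = 2 ∨ HasPlanarLoop L g) : ¬ Spectral (arc L g) ∧ ¬ TightSpectral (arc L g) := by
  have hpl : HasPlanarLoop L g := by
    rcases h2 with rfl | h2
    · refine ⟨0, L, le_rfl, h.pos, le_rfl, h.closed, ⊤, ?_, fun t _ => Submodule.mem_top⟩
      rw [finrank_top]
      simp
    · exact h2
  constructor
  · rintro ⟨Lam, hc, hs⟩
    exact no_tight h hpl Lam hc 1 one_pos (spectrum_tight h Lam hs)
  · rintro ⟨Lam, A, hc, hA, ht⟩
    exact no_tight h hpl Lam hc A hA ht

end Pool.Agent.Results.MP_e9ccd1_an.Planar
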